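import Pool.Agent.Work.MP_223b32_FY.Interface

/-!
Block BOCH of the project MP_223b32_FY (Bochert's theorem by counting).
-/

namespace Pool.Agent.Work.FY

open Finset Equiv.Perm

namespace BOCH

variable {X : Type} [Fintype X] [DecidableEq X]

omit [Fintype X] [DecidableEq X] in
theorem iself (f : Equiv.Perm X) (x : X) : f⁻¹ (f x) = x := Equiv.symm_apply_apply f x

omit [Fintype X] [DecidableEq X] in
theorem selfi (f : Equiv.Perm X) (x : X) : f (f⁻¹ x) = x := Equiv.apply_symm_apply f x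

open Classical in
/-- The elements of `H` with `g a = u`, `g b = v`. -/
noncomputable def fib (H : Subgroup (Equiv.Perm X)) (a b u v : X) : Finset (Equiv.Perm X) :=
  univ.filter fun g => g ∈ H ∧ g a = u ∧ g b = v

theorem fib_card (H : Subgroup (Equiv.Perm X))
    (h2 : ∀ a b c d : X, a ≠ b → c ≠ d → ∃ σ ∈ H, σ a = c ∧ σ b = d)
    {a b u v a' b' u' v' : X} (hab : a ≠ b) (huv : u ≠ v) (hab' : a' ≠ b') (huv' : u' ≠ v') :
    (fib H a b u v).card = (fib H a' b' u' v').card := by
  classical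
  obtain ⟨h, hH, h1, h1'⟩ := h2 u v u' v' huv huv'
  obtain ⟨k, kH, k1, k1'⟩ := h2 a b a' b' hab hab'
  refine Finset.card_bij' (fun g _ => h * g * k⁻¹) (fun g _ => h⁻¹ * g * k) ?_ ?_ ?_ ?_
  · intro g hg
    simp only [fib, mem_filter, mem_univ, true_and] at hg ⊢
    obtain ⟨g1, g2, g3⟩ := hg
    refine ⟨H.mul_mem (H.mul_mem hH g1) (H.inv_mem kH), ?_, ?_⟩
    · rw [Equiv.Perm.mul_apply, Equiv.Perm.mul_apply, ← k1, iself, g2, h1]
    · rw [Equiv.Perm.mul_apply, Equiv.Perm.mul_apply, ← k1', iself, g3, h1']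
  · intro g hg
    simp only [fib, mem_filter, mem_univ, true_and] at hg ⊢
    obtain ⟨g1, g2, g3⟩ := hg
    refine ⟨H.mul_mem (H.mul_mem (H.inv_mem hH) g1) kH, ?_, ?_⟩
    · rw [Equiv.Perm.mul_apply, Equiv.Perm.mul_apply, k1, g2, ← h1, iself]
    · rw [Equiv.Perm.mul_apply, Equiv.Perm.mul_apply, k1', g3, ← h1', iself]
  · intro g _
    group
  · intro g _
    group

/-- support of a commutator -/
theorem supp_comm (s y : Equiv.Perm X) :
    (s * y * s⁻¹ * y⁻¹).support ⊆ (s.support ∩ y.support) ∪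
      ((s.support ∩ y.support).image s ∪ (s.support ∩ y.support).image y) := by
  intro x hx
  rw [Equiv.Perm.mem_support] at hx
  simp only [mem_union, mem_inter, mem_image, Equiv.Perm.mem_support]
  by_cases hs : s x = x
  · by_cases hy : y x = x
    · exfalso
      apply hx
      have e1 : s⁻¹ x = x := by rw [Equiv.Perm.inv_eq_iff_eq, hs]
      have e2 : y⁻¹ x = x := by rw [Equiv.Perm.inv_eq_iff_eq, hy]
      simp only [Equiv.Perm.mul_apply, e2, e1, hy, hs]
    · right; right
      have e1 : s⁻¹ x = x := by rw [Equiv.Perm.inv_eq_iff_eq, hs]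
      refine ⟨y⁻¹ x, ⟨?_, ?_⟩, by simp⟩
      · intro h
        apply hx
        have e2 : s⁻¹ (y⁻¹ x) = y⁻¹ x := by rw [Equiv.Perm.inv_eq_iff_eq, h]
        simp only [Equiv.Perm.mul_apply, e2]
        simp [hs]
      · intro h
        rw [selfi] at h
        apply hy
        nth_rewrite 1 [h]
        simp
  · by_cases hy : y x = x
    · right; left
      have e2 : y⁻¹ x = x := by rw [Equiv.Perm.inv_eq_iff_eq, hy]
      refine ⟨s⁻¹ x, ⟨?_, ?_⟩, by simp⟩
      · intro h
        rw [selfi] at h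
        apply hs
        nth_rewrite 1 [h]
        simp
      · intro h
        apply hx
        simp only [Equiv.Perm.mul_apply, e2, h]
        simp
    · left
      exact ⟨hs, hy⟩

theorem main (H : Subgroup (Equiv.Perm X))
    (h2 : ∀ a b c d : X, a ≠ b → c ≠ d → ∃ σ ∈ H, σ a = c ∧ σ b = d)
    (s : Equiv.Perm X) (sH : s ∈ H) (s1 : s ≠ 1) (h8 : 8 * s.support.card ≤ Fintype.card X)
    (hmin : ∀ z ∈ H, z ≠ 1 → s.support.card ≤ z.support.card) : s.support.card ≤ 3 := by
  classical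
  by_contra hm
  push Not at hm
  obtain ⟨α, hα⟩ : ∃ α, s α ≠ α := by
    by_contra hc
    push Not at hc
    exact s1 (Equiv.ext hc)
  obtain ⟨β, hβ⟩ : ∃ β, β = s α := ⟨_, rfl⟩
  have hαβ : α ≠ β := fun h => hα (by rw [← hβ, ← h])
  obtain ⟨S, hS⟩ : ∃ S, S = s.support := ⟨_, rfl⟩
  obtain ⟨m, hmS⟩ : ∃ m, m = S.card := ⟨_, rfl⟩
  obtain ⟨n, hn⟩ : ∃ n, n = Fintype.card X := ⟨_, rfl⟩
  have memS : ∀ x, x ∈ S ↔ s x ≠ x := fun x => by rw [hS, Equiv.Perm.mem_support]
  have hαS : α ∈ S := (memS α).2 hα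
  have hβS : β ∈ S := by
    rw [memS, hβ]
    intro h
    exact hα (s.injective h)
  -- common value
  obtain ⟨c0, hc0⟩ : ∃ c0, c0 = (fib H α β α β).card := ⟨_, rfl⟩
  have hc0' : 0 < c0 := by
    rw [hc0, Finset.card_pos]
    exact ⟨1, by simp [fib, H.one_mem]⟩
  have hfib : ∀ a b u v, a ≠ b → u ≠ v → (fib H a b u v).card = c0 := fun a b u v h1 h3 => by
    rw [hc0]; exact fib_card H h2 h1 h3 hαβ hαβ
  -- E
  obtain ⟨E, hE⟩ : ∃ E : Finset (Equiv.Perm X),
    E = univ.filter fun g => g ∈ H ∧ g α ∈ S ∧ g β ∉ S := ⟨_, rfl⟩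
  have memE : ∀ g, g ∈ E ↔ g ∈ H ∧ g α ∈ S ∧ g β ∉ S := fun g => by rw [hE]; simp
  have cardE : E.card = m * (n - m) * c0 := by
    have : E = (S ×ˢ Sᶜ).biUnion fun p => fib H α β p.1 p.2 := by
      ext g
      rw [memE]
      simp only [mem_biUnion, mem_product, mem_compl, fib, mem_filter, mem_univ, true_and,
        Prod.exists]
      constructor
      · rintro ⟨g1, g2, g3⟩
        exact ⟨g α, g β, ⟨g2, g3⟩, g1, rfl, rfl⟩
      · rintro ⟨u, v, ⟨h1, h3⟩, g1, rfl, rfl⟩
        exact ⟨g1, h1, h3⟩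
    rw [this, Finset.card_biUnion]
    · rw [Finset.sum_congr rfl (g := fun _ => c0)]
      · rw [Finset.sum_const, Finset.card_product, Finset.card_compl, ← hmS, ← hn, smul_eq_mul]
      · rintro ⟨u, v⟩ huv
        rw [mem_product, mem_compl] at huv
        exact hfib _ _ _ _ hαβ (fun h => huv.2 (by have := huv.1; simp only at this h ⊢; rwa [← h]))
    · rintro ⟨u, v⟩ _ ⟨u', v'⟩ _ hne
      rw [Function.onFun, Finset.disjoint_left]
      intro g hg hg'
      simp only [fib, mem_filter, mem_univ, true_and] at hg hg'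
      exact hne (by rw [← hg.2.1, ← hg.2.2, ← hg'.2.1, ← hg'.2.2])
  have cardF : ∀ δ, δ ≠ α → (univ.filter fun g : Equiv.Perm X => g ∈ H ∧ g α ∈ S ∧ g δ ∈ S).card
      = (m * (m - 1)) * c0 := by
    intro δ hδ
    have : (univ.filter fun g : Equiv.Perm X => g ∈ H ∧ g α ∈ S ∧ g δ ∈ S) =
        S.offDiag.biUnion fun p => fib H α δ p.1 p.2 := by
      ext g
      simp only [mem_biUnion, mem_offDiag, fib, mem_filter, mem_univ, true_and,
        Prod.exists]
      constructor
      · rintro ⟨g1, g2, g3⟩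
        exact ⟨g α, g δ, ⟨g2, g3, fun h => hδ (g.injective h).symm⟩, g1, rfl, rfl⟩
      · rintro ⟨u, v, ⟨h1, h3, _⟩, g1, rfl, rfl⟩
        exact ⟨g1, h1, h3⟩
    rw [this, Finset.card_biUnion]
    · rw [Finset.sum_congr rfl (g := fun _ => c0)]
      · rw [Finset.sum_const, Finset.offDiag_card, ← hmS, smul_eq_mul, Nat.mul_sub_one]
      · rintro ⟨u, v⟩ huv
        rw [mem_offDiag] at huv
        exact hfib _ _ _ _ hδ.symm huv.2.2
    · rintro ⟨u, v⟩ _ ⟨u', v'⟩ _ hne
      rw [Function.onFun, Finset.disjoint_left]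
      intro g hg hg'
      simp only [fib, mem_filter, mem_univ, true_and] at hg hg'
      exact hne (by rw [← hg.2.1, ← hg.2.2, ← hg'.2.1, ← hg'.2.2])
  -- the inequality for each g in E
  have key : ∀ g ∈ E, m ≤ 3 * (S.filter fun δ => g δ ∈ S).card := by
    intro g hg
    rw [memE] at hg
    obtain ⟨g1, g2, g3⟩ := hg
    obtain ⟨y, hy⟩ : ∃ y, y = g⁻¹ * s * g := ⟨_, rfl⟩
    have yH : y ∈ H := by rw [hy]; exact H.mul_mem (H.mul_mem (H.inv_mem g1) sH) g1
    have hysup : ∀ δ, y δ ≠ δ ↔ g δ ∈ S := by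
      intro δ
      rw [memS, hy, Equiv.Perm.mul_apply, Equiv.Perm.mul_apply, ne_eq, ne_eq,
        Equiv.Perm.inv_eq_iff_eq]
    have hyβ : y β = β := by
      by_contra h
      exact g3 ((hysup β).1 h)
    have hyα : y α ≠ α := (hysup α).2 g2
    have hz1 : s * y * s⁻¹ * y⁻¹ ≠ 1 := by
      intro h
      have h' : s * y = y * s := by
        have := congrArg (fun t => t * y * s) h
        simpa [mul_assoc] using this
      have h3 := congrArg (fun t : Equiv.Perm X => t α) h'
      simp only [Equiv.Perm.mul_apply] at h3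
      rw [← hβ, hyβ, hβ] at h3
      exact hyα (s.injective h3)
    have hzH : s * y * s⁻¹ * y⁻¹ ∈ H :=
      H.mul_mem (H.mul_mem (H.mul_mem sH yH) (H.inv_mem sH)) (H.inv_mem yH)
    have hT : s.support ∩ y.support = S.filter fun δ => g δ ∈ S := by
      ext δ
      rw [mem_inter, Equiv.Perm.mem_support, Equiv.Perm.mem_support, mem_filter, memS, hysup]
    calc m ≤ (s * y * s⁻¹ * y⁻¹).support.card := by
          rw [hmS, hS]; exact hmin _ hzH hz1
      _ ≤ _ := Finset.card_le_card (supp_comm s y)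
      _ ≤ (s.support ∩ y.support).card + (((s.support ∩ y.support).image s).card +
          ((s.support ∩ y.support).image y).card) :=
          (Finset.card_union_le _ _).trans (Nat.add_le_add_left (Finset.card_union_le _ _) _)
      _ ≤ (s.support ∩ y.support).card + ((s.support ∩ y.support).card +
          (s.support ∩ y.support).card) :=
          Nat.add_le_add_left (Nat.add_le_add Finset.card_image_le Finset.card_image_le) _
      _ = 3 * (S.filter fun δ => g δ ∈ S).card := by rw [hT]; ring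
  have hsum : ∑ g ∈ E, (S.filter fun δ => g δ ∈ S).card =
      ∑ δ ∈ S, (E.filter fun g => g δ ∈ S).card :=
    Finset.sum_card_bipartiteAbove_eq_sum_card_bipartiteBelow (fun (g : Equiv.Perm X) (δ : X) => g δ ∈ S)
  have hsum2 : ∑ δ ∈ S, (E.filter fun g => g δ ∈ S).card ≤
      E.card + (m - 2) * (m * (m - 1) * c0) := by
    rw [← Finset.add_sum_erase _ _ hαS]
    apply Nat.add_le_add
    · exact Finset.card_le_card (Finset.filter_subset _ _)
    · have hβ' : β ∈ S.erase α := by rw [mem_erase]; exact ⟨hαβ.symm, hβS⟩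
      rw [← Finset.add_sum_erase _ _ hβ']
      have h0 : (E.filter fun g => g β ∈ S).card = 0 := by
        rw [Finset.card_eq_zero, Finset.filter_eq_empty_iff]
        intro g hg
        rw [memE] at hg
        exact hg.2.2
      rw [h0, zero_add]
      have hle : ∀ δ ∈ (S.erase α).erase β, (E.filter fun g => g δ ∈ S).card ≤
          m * (m - 1) * c0 := by
        intro δ hδ
        rw [mem_erase, mem_erase] at hδ
        rw [← cardF δ hδ.2.1]
        apply Finset.card_le_card
        intro g hg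
        rw [mem_filter, memE] at hg
        rw [mem_filter]
        exact ⟨mem_univ _, hg.1.1, hg.1.2.1, hg.2⟩
      refine (Finset.sum_le_card_nsmul _ _ _ hle).trans ?_
      rw [smul_eq_mul, Finset.card_erase_of_mem hβ', Finset.card_erase_of_mem hαS, ← hmS]
      apply Nat.mul_le_mul_right
      omega
  have hfin : m * E.card ≤ 3 * (E.card + (m - 2) * (m * (m - 1) * c0)) := by
    calc m * E.card = ∑ g ∈ E, m := by rw [Finset.sum_const, smul_eq_mul, mul_comm]
      _ ≤ ∑ g ∈ E, 3 * (S.filter fun δ => g δ ∈ S).card := Finset.sum_le_sum key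
      _ = 3 * ∑ g ∈ E, (S.filter fun δ => g δ ∈ S).card := by rw [Finset.mul_sum]
      _ ≤ _ := by rw [hsum]; exact Nat.mul_le_mul_left _ hsum2
  -- arithmetic
  have hm4 : 4 ≤ m := by rw [hmS, hS]; omega
  have hn8 : 8 * m ≤ n := by rw [hmS, hS, hn]; exact h8
  rw [cardE] at hfin
  obtain ⟨k, hk⟩ : ∃ k, m = k + 4 := ⟨m - 4, by omega⟩
  obtain ⟨l, hl⟩ : ∃ l, n - m = 7 * m + l := ⟨n - m - 7 * m, by omega⟩
  rw [hl, hk] at hfin
  have e1 : k + 4 - 2 = k + 2 := by omega
  have e2 : k + 4 - 1 = k + 3 := by omega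
  rw [e1, e2] at hfin
  have hpos : 0 < (k + 4) * c0 := by positivity
  have h5 : (k + 1) * (7 * (k + 4) + l) ≤ 3 * ((k + 2) * (k + 3)) := by
    by_contra hc
    push Not at hc
    have := Nat.mul_lt_mul_of_pos_left hc hpos
    nlinarith
  nlinarith

end BOCH

theorem stmt_BOCH : Stmt_BOCH := by
  classical
  intro X _ _ H h2 hex
  have h2' : MulAction.IsMultiplyPretransitive H X 2 := by
    rw [MulAction.is_two_pretransitive_iff]
    intro a b c d hab hcd
    obtain ⟨σ, hσ, h1, h3⟩ := h2 a b c d hab hcd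
    exact ⟨⟨σ, hσ⟩, h1, h3⟩
  have hprim : MulAction.IsPreprimitive H X := MulAction.isPreprimitive_of_is_two_pretransitive h2'
  obtain ⟨σ, hσ, hσ1, hσ8⟩ := hex
  obtain ⟨s, hs, hmin⟩ := Finset.exists_min_image (univ.filter fun g : Equiv.Perm X => g ∈ H ∧ g ≠ 1)
    (fun g => g.support.card) ⟨σ, by simp [hσ, hσ1]⟩
  simp only [mem_filter, mem_univ, true_and] at hs hmin
  have hle := BOCH.main H h2 s hs.1 hs.2
    ((Nat.mul_le_mul_left _ (hmin σ ⟨hσ, hσ1⟩)).trans hσ8) (fun z h1 h3 => hmin z ⟨h1, h3⟩)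
  have hge := two_le_card_support_of_ne_one hs.2
  obtain h | h : s.support.card = 2 ∨ s.support.card = 3 := by omega
  · rw [subgroup_eq_top_of_isPreprimitive_of_isSwap_mem hprim s (card_support_eq_two.1 h) hs.1]
    exact le_top
  · exact alternatingGroup_le_of_isPreprimitive_of_isThreeCycle_mem hprim
      (card_support_eq_three_iff.1 h) hs.1

end Pool.Agent.Work.FY
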